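import Pool.Agent.Lib.MP_0a5adf_nt.EXP.Base

/-!
# Explicit descent exponents for all `θ ∈ [3/4, 1]`: definitions and module statements

Blueprint: `EXR/Paper.md` (changes against `EXP/Paper.md`).  `T`, `ones`, `pre`, `suf`, `rr`, `wd`,
`sol`, `zeta`, `wt`, `quad` are those of `EXP/Base.lean`.
-/

set_option autoImplicit false

namespace Pool.Agent.Lib.MP_0a5adf_nt.EXR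

open Finset Pool.Agent.Lib.MP_0a5adf_nt.EXP

/-- The four times `m + d, 2m + d, 3m + d, 4m + d`. -/
def SG (m d c : ℕ) : Set ℤ :=
  {x : ℤ | |x| ≤ 2 ^ (3 * m + d + c) ∧
    ∀ i : ℕ, 1 ≤ i → i ≤ 4 → 2 ^ (3 * m) ≤ 2 ^ c * |T^[i * m + d] x|}

/-- `Ψ = (1 + 6 * 9 ^ lam + 81 ^ lam) / 16 ^ lam` -/
noncomputable def Psi (lam : ℝ) : ℝ := (1 + 6 * (9 : ℝ) ^ lam + (81 : ℝ) ^ lam) / (16 : ℝ) ^ lam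

/-- The exponent. -/
noncomputable def EE (θ lam : ℝ) : ℝ :=
  (1 - θ) / 4 - 4 * θ / 3 * lam + (3 + θ) / 12 * Real.logb 2 (1 + 6 * (9 : ℝ) ^ lam + (81 : ℝ) ^ lam)

/-- HEIGHTG -/
def HeightGStatement : Prop :=
  ∀ c : ℕ, ∃ m0 : ℕ, ∀ m ≥ m0, ∀ d ≤ m + 4, ∀ x ∈ SG m d c, ∀ J0 J1 J2 J3 : ℕ,
    J0 = ones (wd (m + d) x) → J1 = J0 + ones (wd m (T^[m + d] x)) →
    J2 = J1 + ones (wd m (T^[2 * m + d] x)) → J3 = J2 + ones (wd m (T^[3 * m + d] x)) →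
    2 ^ m ≤ 2 ^ (2 * c + 1) * 3 ^ J0 ∧ 2 ^ (2 * m) ≤ 2 ^ (2 * c + 1) * 3 ^ J1 ∧
    2 ^ (3 * m) ≤ 2 ^ (2 * c + 1) * 3 ^ J2 ∧ 2 ^ (4 * m) ≤ 2 ^ (2 * c + 1) * 3 ^ J3

/-- DECOMPG -/
def DecompGStatement : Prop :=
  ∀ (m d c : ℕ) (x : ℤ) (J0 J1 J2 j3 : ℕ), |x| ≤ 2 ^ (3 * m + d + c) →
    J0 = ones (wd (m + d) x) → J1 = J0 + ones (wd m (T^[m + d] x)) →
    J2 = J1 + ones (wd m (T^[2 * m + d] x)) → j3 = ones (wd m (T^[3 * m + d] x)) →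
    ∃ κ : ℤ, |κ| ≤ 3 + 2 ^ c ∧
      x = sol J0 (3 * m + d) (rr (wd (m + d) x))
        + 2 ^ (m + d) * sol J1 (2 * m) (rr (wd m (T^[m + d] x)))
        + 2 ^ (2 * m + d) * sol J2 m (rr (wd m (T^[2 * m + d] x))) - κ * 2 ^ (3 * m + d) ∧
      (2 : ℤ) ^ m ∣ 3 ^ (j3 + (J2 - J0)) * zeta J0 (3 * m + d) (rr (wd (m + d) x))
        + 3 ^ (j3 + (J2 - J1)) * zeta J1 (2 * m) (rr (wd m (T^[m + d] x)))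
        + 3 ^ j3 * zeta J2 m (rr (wd m (T^[2 * m + d] x)))
        + rr (wd m (T^[3 * m + d] x)) - κ * 3 ^ (j3 + J2)

/-- CSG: four different types of words. -/
def CsGStatement : Prop :=
  ∀ (W0 W1 W2 W3 G : Type) [DecidableEq W0] [DecidableEq W1] [DecidableEq W2] [DecidableEq W3]
    [AddCommGroup G] [DecidableEq G] (C0 : Finset W0) (C1 : Finset W1) (C2 : Finset W2)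
    (C3 : Finset W3) (f0 : W0 → G) (f1 : W1 → G) (f2 : W2 → G) (f3 : W3 → G) (g : G),
    (#{q ∈ C0 ×ˢ C1 ×ˢ C2 ×ˢ C3 | f0 q.1 + f1 q.2.1 + f2 q.2.2.1 + f3 q.2.2.2 = g}) ^ 4 ≤
      #{q ∈ quad C0 | f0 q.1 + f0 q.2.1 = f0 q.2.2.1 + f0 q.2.2.2} *
      #{q ∈ quad C1 | f1 q.1 + f1 q.2.1 = f1 q.2.2.1 + f1 q.2.2.2} *
      #{q ∈ quad C2 | f2 q.1 + f2 q.2.1 = f2 q.2.2.1 + f2 q.2.2.2} *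
      #{q ∈ quad C3 | f3 q.1 + f3 q.2.1 = f3 q.2.2.1 + f3 q.2.2.2}

/-- RIDOUTG -/
def RidoutGStatement : Prop :=
  ∀ (c D : ℕ) (ε : ℝ), 0 < ε → ∃ m0 : ℕ, ∀ m ≥ m0, ∀ P J : ℕ, P ≤ D * m → J ≤ D * m →
    2 ^ m ≤ 2 ^ c * 3 ^ J → ∀ u v : ℤ, |u| ≤ 2 ^ (P + 2) → v ≠ 0 →
      (2 : ℤ) ^ (P + m) ∣ 3 ^ J * u + v → (2 : ℝ) ^ ((1 - ε) * m) ≤ |(v : ℝ)|

/-- ENERGYG -/
def EnergyGStatement : Prop :=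
  ∀ (c D : ℕ) (ε : ℝ), 0 < ε → ∃ m0 : ℕ, ∀ m ≥ m0, ∀ P J k : ℕ, P ≤ D * m → J ≤ D * m →
    2 ^ m ≤ 2 ^ c * 3 ^ J → ∀ (C : Finset (Fin k → Bool)) (R T : ℝ), 2 ^ m ≤ R →
      (∀ w ∈ C, (rr w : ℝ) ≤ R) →
      (∀ v : ℤ, (#{q ∈ quad C | rr q.1 + rr q.2.1 - rr q.2.2.1 - rr q.2.2.2 = v} : ℝ) ≤ T) →
      (#{q ∈ quad C | (2 : ℤ) ^ m ∣
        zeta J P (rr q.1) + zeta J P (rr q.2.1) - zeta J P (rr q.2.2.1) - zeta J P (rr q.2.2.2)} : ℝ) ≤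
        16 * 2 ^ (ε * m) * (R / 2 ^ m) * T

/-- LETTER: the four letter factors. -/
def LetterStatement : Prop :=
  ∀ lam a b : ℝ, 0 ≤ lam → lam ≤ 1 / 3 → a = (3 : ℝ) ^ lam / (1 + (3 : ℝ) ^ lam) →
    b = (3 : ℝ) ^ (lam + 1 / 4) / (1 + (3 : ℝ) ^ (lam + 1 / 4)) →
    (1 + (1 - 2 * a) ^ 4) / 2 * (1 / 2 : ℝ) ^ (4 * lam) ≤ Psi lam * (1 - a) ^ 4 ∧
    (1 + (1 - 2 * a) ^ 4) / 2 * (3 / 2 : ℝ) ^ (4 * lam) ≤ Psi lam * a ^ 4 ∧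
    (1 + (1 - 2 * b) ^ 4) / 2 * (1 / 2 : ℝ) ^ (4 * lam + 1) ≤ Psi lam * (1 - b) ^ 4 ∧
    (1 + (1 - 2 * b) ^ 4) / 2 * (3 / 2 : ℝ) ^ (4 * lam + 1) ≤ Psi lam * b ^ 4

/-- CLASSG: one class and one `κ` (here `g`). -/
def ClassGStatement : Prop :=
  ∀ (c : ℕ) (ε lam : ℝ), 0 < ε → 0 ≤ lam → lam ≤ 1 / 3 → ∃ m0 : ℕ, ∀ m ≥ m0, ∀ d ≤ m + 4,
    ∀ (n j' j'' : Fin 3 → ℕ) (j3 J0 J1 J2 : ℕ),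
    (n 0 ≤ m + d ∧ j' 0 ≤ n 0 ∧ j'' 0 ≤ m + d - n 0 ∧ 2 ^ (m + d) ≤ 2 ^ n 0 * 3 ^ j'' 0) →
    (n 1 ≤ m ∧ j' 1 ≤ n 1 ∧ j'' 1 ≤ m - n 1 ∧ 2 ^ m ≤ 2 ^ n 1 * 3 ^ j'' 1) →
    (n 2 ≤ m ∧ j' 2 ≤ n 2 ∧ j'' 2 ≤ m - n 2 ∧ 2 ^ m ≤ 2 ^ n 2 * 3 ^ j'' 2) → j3 ≤ m →
    J0 = j' 0 + j'' 0 → J1 = J0 + (j' 1 + j'' 1) → J2 = J1 + (j' 2 + j'' 2) →
    2 ^ m ≤ 2 ^ c * 3 ^ J0 → 2 ^ (2 * m) ≤ 2 ^ c * 3 ^ J1 → 2 ^ (3 * m) ≤ 2 ^ c * 3 ^ J2 →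
    2 ^ (4 * m) ≤ 2 ^ c * 3 ^ (J2 + j3) → ∀ g : ℤ,
    (#{q : (Fin (m + d) → Bool) × (Fin m → Bool) × (Fin m → Bool) × (Fin m → Bool) |
        (pre q.1 (n 0) = j' 0 ∧ suf q.1 (n 0) = j'' 0 ∧
          rr q.1 ≤ (m + d : ℕ) * (2 ^ n 0 * 3 ^ j'' 0)) ∧
        (pre q.2.1 (n 1) = j' 1 ∧ suf q.2.1 (n 1) = j'' 1 ∧
          rr q.2.1 ≤ m * (2 ^ n 1 * 3 ^ j'' 1)) ∧
        (pre q.2.2.1 (n 2) = j' 2 ∧ suf q.2.2.1 (n 2) = j'' 2 ∧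
          rr q.2.2.1 ≤ m * (2 ^ n 2 * 3 ^ j'' 2)) ∧ ones q.2.2.2 = j3 ∧
        (2 : ℤ) ^ m ∣ 3 ^ (j3 + (J2 - J0)) * zeta J0 (3 * m + d) (rr q.1)
          + 3 ^ (j3 + (J2 - J1)) * zeta J1 (2 * m) (rr q.2.1)
          + 3 ^ j3 * zeta J2 m (rr q.2.2.1) + rr q.2.2.2 - g} : ℝ) ^ 4 ≤
      (100 * m * 2 ^ (ε * m)) ^ 3 * 2 ^ (4 * c * lam) * 2 ^ ((1 + 4 * lam) * d) *
        Psi lam ^ (4 * m + d)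

/-- MAING -/
def MainGStatement : Prop :=
  ∀ (c : ℕ) (ε lam : ℝ), 0 < ε → 0 ≤ lam → lam ≤ 1 / 3 → ∃ C : ℝ, ∀ m d : ℕ, d ≤ m + 4 →
    ((SG m d c).ncard : ℝ) ≤
      C * 2 ^ (ε * m) * 2 ^ ((lam + 1 / 4) * d) * Psi lam ^ (((4 * m + d : ℕ) : ℝ) / 4)

/-- EXC: first moment bound for large values during the first `N` steps. -/
def ExcStatement : Prop :=
  ∃ C : ℝ, ∀ (N : ℕ) (Y : ℝ), 0 < Y →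
    ({x : ℤ | |x| ≤ 2 ^ N ∧ ∃ k ≤ N, Y ≤ |((T^[k] x : ℤ) : ℝ)|}.ncard : ℝ) * Y ≤
      C * (N + 1) ^ 2 * 4 ^ N

/-- `x` falls below `|x| ^ θ` within `(1 + θ/3) log_2 |x|` steps and stays below `|x| ^ β` before. -/
def GoodG (θ β : ℝ) (x : ℤ) : Prop :=
  ∃ k : ℕ, (k : ℝ) ≤ (1 + θ / 3) * Real.logb 2 |(x : ℝ)| ∧
    |((T^[k] x : ℤ) : ℝ)| < |(x : ℝ)| ^ θ ∧ ∀ j ≤ k, |((T^[j] x : ℤ) : ℝ)| ≤ |(x : ℝ)| ^ β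

/-- FINALG (uses MAING and EXC) -/
def FinalGStatement : Prop :=
  ∀ θ lam ε : ℝ, 3 / 4 ≤ θ → θ ≤ 1 → 0 ≤ lam → lam ≤ 1 / 3 → 0 < ε → ∃ C : ℝ, ∀ X : ℝ, 1 ≤ X →
    ({x : ℤ | |(x : ℝ)| ≤ X ∧ ¬ GoodG θ (2 - EE θ lam + θ / 5 + ε) x}.ncard : ℝ) ≤
      C * X ^ (EE θ lam + ε)

end Pool.Agent.Lib.MP_0a5adf_nt.EXR
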